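import Mathlib
import Pool.Agent.Lib.MP_bd8415_an.Arclen.Main

/-!
# One entire Steklov eigenfunction: a disk when one boundary arc is regular as a function of arc
length

`Ω = {ρ < 0}` is a bounded connected planar domain with `C²` boundary `{ρ = 0}`, of any
connectivity. If one nonconstant Steklov eigenfunction of `Ω` is the restriction of a harmonic
function on the whole plane, and one arc of the boundary, not a line segment, has an arc length
parametrisation `t ↦ Z t`, `t` real near `0`, such that `Z` is holomorphic in the plane off a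
countable closed set, then `Ω` is a disk.
-/

namespace Pool.Agent.Results.MP_bd8415_an.ArclengthArc

/-- The gradient of `ρ`, as a complex number; on `{ρ = 0}` it is a positive multiple of the outward
unit normal of `{ρ < 0}` when the derivative does not vanish. -/
noncomputable def grad (ρ : ℂ → ℝ) (z : ℂ) : ℂ :=
  ((fderiv ℝ ρ z 1 : ℝ) : ℂ) + ((fderiv ℝ ρ z Complex.I : ℝ) : ℂ) * Complex.I

/-- Let `Ω = {ρ < 0}` be bounded and connected, with `ρ` of class `C²` and `dρ ≠ 0` on `{ρ = 0}`.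
Let `U` be harmonic on the whole plane, nonconstant on `Ω`, with `∂U/∂ν = σ U` on the boundary of
`Ω` for some real `σ`. Let `Z` be holomorphic off a countable closed set `E` which does not contain
`0`, and let, for all real `t` near `0`, `Z t` be a boundary point and `|Z' t| = 1`, where `Z'` is
not constant near `0` on the real line. Then `Ω` is a disk. -/
theorem result (ρ : ℂ → ℝ) (hρ : ContDiff ℝ 2 ρ)
    (hgrad : ∀ z : ℂ, ρ z = 0 → fderiv ℝ ρ z ≠ 0)
    (hbdd : Bornology.IsBounded {z : ℂ | ρ z < 0})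
    (hconn : IsConnected {z : ℂ | ρ z < 0})
    (U : ℂ → ℝ) (hU : InnerProductSpace.HarmonicOnNhd U Set.univ) (σ : ℝ)
    (hbc : ∀ z : ℂ, ρ z = 0 → fderiv ℝ U z (grad ρ z) = σ * U z * ‖grad ρ z‖)
    (hne : ∃ z w : ℂ, ρ z < 0 ∧ ρ w < 0 ∧ U z ≠ U w)
    (Z : ℂ → ℂ) (E : Set ℂ) (hE : IsClosed E) (hEc : E.Countable) (h0 : (0 : ℂ) ∉ E)
    (hZ : DifferentiableOn ℂ Z Eᶜ)
    (harc : ∀ᶠ t : ℝ in nhds 0, ρ (Z t) = 0 ∧ ‖deriv Z t‖ = 1)
    (hcurv : ∃ᶠ t : ℝ in nhds 0, deriv Z t ≠ deriv Z 0) :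
    ∃ (z₀ : ℂ) (r : ℝ), {z : ℂ | ρ z < 0} = Metric.ball z₀ r := by
  obtain ⟨G, hGa, hGU⟩ := hU.exists_analyticOnNhd_univ_re_eq
  have hG : Differentiable ℂ G := fun z => (hGa z (Set.mem_univ z)).differentiableAt
  have hbc' : ∀ z, ρ z = 0 → (deriv G z * Pool.Agent.Stek.grad ρ z).re =
      σ * (G z).re * ‖Pool.Agent.Stek.grad ρ z‖ := by
    intro z hz
    have h1 := hbc z hz
    rw [← hGU, Pool.Agent.Stek.fderiv_re hG] at h1
    exact h1
  have hne' : ∃ z w, ρ z < 0 ∧ ρ w < 0 ∧ (G z).re ≠ (G w).re := by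
    obtain ⟨z, w, h1, h2, h3⟩ := hne
    refine ⟨z, w, h1, h2, ?_⟩
    rw [← hGU] at h3
    exact h3
  exact Pool.Agent.Stek.arclen_arc hρ hgrad hbdd hconn hE hEc h0 hZ harc hcurv hG hbc' hne'

end Pool.Agent.Results.MP_bd8415_an.ArclengthArc
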