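import Mathlib
import Pool.Agent.Lib.MP_bd8415_an.CsArc

/-!
# One entire Steklov eigenfunction forces a disk, when one boundary arc is parametrised with
countably many complex singularities

`Ω = {ρ < 0}` is a bounded connected planar domain with `C²` boundary `{ρ = 0}`, of any
connectivity. One arc of the boundary is parametrised by `ζ ↦ p ζ`, `|ζ| = 1`, `ζ` near `1`, with
`p' 1 ≠ 0` and complex conjugate `q ζ`, where `p` is holomorphic in the plane off a countable closed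
set `F₁`, `q` is holomorphic in the plane off a countable closed set `F₂`, and `F₁`, `F₂` are
disjoint and do not contain `1`. If one nonconstant Steklov eigenfunction of `Ω` is the restriction
of a harmonic function on the whole plane, then `Ω` is a disk.
-/

namespace Pool.Agent.Results.MP_bd8415_an.CountableSingularArc

/-- The gradient of `ρ`, as a complex number; on `{ρ = 0}` it is a positive multiple of the outward
unit normal of `{ρ < 0}` when the derivative does not vanish. -/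
noncomputable def grad (ρ : ℂ → ℝ) (z : ℂ) : ℂ :=
  ((fderiv ℝ ρ z 1 : ℝ) : ℂ) + ((fderiv ℝ ρ z Complex.I : ℝ) : ℂ) * Complex.I

/-- Let `Ω = {ρ < 0}` be bounded and connected, with `ρ` of class `C²` and `dρ ≠ 0` on `{ρ = 0}`.
Let `p` be holomorphic off the countable closed set `F₁` and `q` holomorphic off the countable
closed set `F₂`, where `F₁` and `F₂` are disjoint and do not contain `1`; let `p' 1 ≠ 0`, and for
all `ζ` near `1` with `|ζ| = 1` let `p ζ` be a boundary point and `q ζ = conj (p ζ)`. Let `U` be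
harmonic on the whole plane, nonconstant on `Ω`, with `∂U/∂ν = σ U` on the boundary of `Ω` for some
real `σ`. Then `Ω` is a disk. -/
theorem result (ρ : ℂ → ℝ) (hρ : ContDiff ℝ 2 ρ)
    (hgrad : ∀ z : ℂ, ρ z = 0 → fderiv ℝ ρ z ≠ 0)
    (hbdd : Bornology.IsBounded {z : ℂ | ρ z < 0})
    (hconn : IsConnected {z : ℂ | ρ z < 0})
    (p q : ℂ → ℂ) (F₁ F₂ : Set ℂ) (hF₁ : IsClosed F₁) (hF₁c : F₁.Countable)
    (hF₂ : IsClosed F₂) (hF₂c : F₂.Countable) (hdisj : Disjoint F₁ F₂)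
    (h1F₁ : (1 : ℂ) ∉ F₁) (h1F₂ : (1 : ℂ) ∉ F₂)
    (hp : DifferentiableOn ℂ p F₁ᶜ) (hq : DifferentiableOn ℂ q F₂ᶜ) (hp1 : deriv p 1 ≠ 0)
    (harc : ∀ᶠ ζ in nhds (1 : ℂ), ‖ζ‖ = 1 → ρ (p ζ) = 0 ∧ q ζ = (starRingEnd ℂ) (p ζ))
    (U : ℂ → ℝ) (hU : InnerProductSpace.HarmonicOnNhd U Set.univ) (σ : ℝ)
    (hbc : ∀ z : ℂ, ρ z = 0 → fderiv ℝ U z (grad ρ z) = σ * U z * ‖grad ρ z‖)
    (hne : ∃ z w : ℂ, ρ z < 0 ∧ ρ w < 0 ∧ U z ≠ U w) :
    ∃ (z₀ : ℂ) (r : ℝ), {z : ℂ | ρ z < 0} = Metric.ball z₀ r := by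
  obtain ⟨G, hGa, hGU⟩ := hU.exists_analyticOnNhd_univ_re_eq
  have hG : Differentiable ℂ G := fun z => (hGa z (Set.mem_univ z)).differentiableAt
  have hbc' : ∀ z, ρ z = 0 → (deriv G z * Pool.Agent.Stek.grad ρ z).re =
      σ * (G z).re * ‖Pool.Agent.Stek.grad ρ z‖ := by
    intro z hz
    have h1 := hbc z hz
    rw [← hGU, Pool.Agent.Stek.fderiv_re hG] at h1
    exact h1
  have hne' : ∃ z w, ρ z < 0 ∧ ρ w < 0 ∧ (G z).re ≠ (G w).re := by
    obtain ⟨z, w, h1, h2, h3⟩ := hne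
    refine ⟨z, w, h1, h2, ?_⟩
    rw [← hGU] at h3
    exact h3
  exact Pool.Agent.Stek.csarc hρ hgrad hbdd hconn hF₁ hF₁c hF₂ hF₂c hdisj h1F₁ h1F₂ hp hq harc hp1
    hG hbc' hne'

end Pool.Agent.Results.MP_bd8415_an.CountableSingularArc
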