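import Mathlib
import Pool.Agent.Lib.MP_bd8415_an.Alg.Focus

/-!
# No entire Steklov eigenfunction when one boundary arc lies on an algebraic curve with a focus

One nonempty relatively open part `{ρ = 0} ∩ V` of a smooth boundary lies on the curve
`Q(z, conj z) = 0`, where `Q(z,w)` is an irreducible complex polynomial in two variables. The
complex curve `Q(z,w) = 0` has a finite point near which, for a local parametrisation
`z = a(t)`, `w = b(t)`, the function `a'(t) b'(t)` vanishes to odd order. At a smooth point of the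
curve this says that an isotropic line `z = const` or `w = const` touches the curve there with
contact of even order; with contact of order two these points are the ordinary foci of the curve
(for example the foci of an ellipse, a parabola or a hyperbola).

Then a function which is harmonic on the whole plane and satisfies `∂U/∂ν = σ U`, `σ ≠ 0`, on the
arc `{ρ = 0} ∩ V` is identically zero.
-/

namespace Pool.Agent.Results.MP_bd8415_an.FocusArc

/-- The gradient of `ρ`, as a complex number; on `{ρ = 0}` it is a positive multiple of the outward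
unit normal of `{ρ < 0}` when the derivative does not vanish. -/
noncomputable def grad (ρ : ℂ → ℝ) (z : ℂ) : ℂ :=
  ((fderiv ℝ ρ z 1 : ℝ) : ℂ) + ((fderiv ℝ ρ z Complex.I : ℝ) : ℂ) * Complex.I

/-- Let `ρ` be real differentiable on the plane, `V` open, `{ρ = 0} ∩ V` nonempty, and `dρ ≠ 0`
there. Let `Q(z,w)` be an irreducible polynomial (`z` is the inner and `w` the outer variable) with
`Q(z, conj z) = 0` on `{ρ = 0} ∩ V`. Let `a`, `b` be holomorphic near `0` with `Q(a(t), b(t)) = 0`
for `t` near `0`, such that `a' b'` vanishes at `0` to the finite odd order `2 k + 1`. If `U` is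
harmonic on the whole plane and `∂U/∂ν = σ U` on `{ρ = 0} ∩ V` for a real `σ ≠ 0`, then `U = 0`. -/
theorem result (ρ : ℂ → ℝ) (hρ : Differentiable ℝ ρ) (V : Set ℂ) (hV : IsOpen V)
    (hne : ∃ z ∈ V, ρ z = 0) (hgrad : ∀ z ∈ V, ρ z = 0 → fderiv ℝ ρ z ≠ 0)
    (Q : Polynomial (Polynomial ℂ)) (hQ : Irreducible Q)
    (hcurve : ∀ z ∈ V, ρ z = 0 → Q.evalEval z ((starRingEnd ℂ) z) = 0)
    (a b : ℂ → ℂ) (ha : AnalyticAt ℂ a 0) (hb : AnalyticAt ℂ b 0)
    (hab : ∀ᶠ t in nhds (0 : ℂ), Q.evalEval (a t) (b t) = 0) (k : ℕ)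
    (hord : analyticOrderAt (fun t => deriv a t * deriv b t) 0 = ((2 * k + 1 : ℕ) : ℕ∞))
    (U : ℂ → ℝ) (hU : InnerProductSpace.HarmonicOnNhd U Set.univ) (σ : ℝ) (hσ : σ ≠ 0)
    (hbc : ∀ z ∈ V, ρ z = 0 → fderiv ℝ U z (grad ρ z) = σ * U z * ‖grad ρ z‖) :
    ∀ z : ℂ, U z = 0 := by
  obtain ⟨G, hGa, hGU⟩ := hU.exists_analyticOnNhd_univ_re_eq
  have hG : Differentiable ℂ G := fun z => (hGa z (Set.mem_univ z)).differentiableAt
  have hbc' : ∀ z ∈ V, ρ z = 0 → (deriv G z * Pool.Agent.Stek.grad ρ z).re =
      σ * (G z).re * ‖Pool.Agent.Stek.grad ρ z‖ := by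
    intro z hz h0
    have h1 := hbc z hz h0
    rw [← hGU, Pool.Agent.Stek.fderiv_re hG] at h1
    exact h1
  have h := Pool.Agent.Stek.focus_theorem hρ hV hgrad hne hQ hcurve ha hb hab hord hG hσ hbc'
  intro z
  rw [← hGU]
  exact h z

end Pool.Agent.Results.MP_bd8415_an.FocusArc
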